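import Mathlib
import Pool.Agent.H51.SierB

set_option autoImplicit false

namespace Pool.Agent.Results.MP_adcce9_an.NoC0

open Pool.Agent.H51.SierA Pool.Agent.H51.SierB Filter

theorem result (𝕜 : Type) [RCLike 𝕜] (f : ℕ → ℚ) :
    ¬ ∃ T : (ZeroAtInftyContinuousMap ℕ 𝕜 × ZeroAtInftyContinuousMap ℕ 𝕜) →ₗ[𝕜] X 𝕜 f,
      ∀ x y, ‖T (x, y)‖ = ‖x‖ + ‖y‖ := by
  rintro ⟨T, hT⟩
  let e : ℕ → ZeroAtInftyContinuousMap ℕ 𝕜 := fun k =>
    ⟨⟨fun n => if n = k then 1 else 0, continuous_of_discreteTopology⟩, by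
      rw [cocompact_eq_cofinite, Nat.cofinite_eq_atTop]
      refine tendsto_const_nhds.congr' ?_
      filter_upwards [eventually_gt_atTop k] with n hn
      simp [hn.ne']⟩
  have ev : ∀ k n, e k n = if n = k then 1 else 0 := fun _ _ => rfl
  have up : ∀ g : ZeroAtInftyContinuousMap ℕ 𝕜, (∀ n, ‖g n‖ ≤ 1) → ‖g‖ ≤ 1 := fun g hg =>
    (BoundedContinuousFunction.norm_le zero_le_one).2 hg
  have lo : ∀ (g : ZeroAtInftyContinuousMap ℕ 𝕜) n, g n = 1 → 1 ≤ ‖g‖ := fun g n hg => by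
    have := g.toBCF.norm_coe_le_norm n
    rwa [show g.toBCF n = 1 from hg, norm_one] at this
  have he : ∀ k, ‖e k‖ = 1 := fun k => le_antisymm (up _ fun n => by
    rw [ev]; split_ifs <;> simp) (lo _ k (by simp [ev]))
  have h1 : ∀ i j, i ≠ j → ‖e (i + 1) - e (j + 1)‖ = 1 := fun i j h => le_antisymm (up _ fun n => by
    rw [ZeroAtInftyContinuousMap.sub_apply, ev, ev]; split_ifs <;> simp)
    (lo _ (i + 1) (by simp [ev, h]))
  have h2 : ∀ i j, ‖e 0 + (e (i + 1) - e (j + 1))‖ ≤ 1 := fun i j => up _ fun n => by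
    rw [ZeroAtInftyContinuousMap.add_apply, ZeroAtInftyContinuousMap.sub_apply, ev, ev, ev]
    split_ifs <;> first | omega | simp
  refine main (T (e 0, 0)) (T (0, e 0)) (fun k => T (0, e (k + 1))) (fun k => T (e (k + 1), 0))
    1 (by simp) (by simp [hT, he]) (by simp [hT, he])
    (by simp [hT, he]) (by simp [hT, he]) (fun i j h => ?_) fun i j h => ?_ <;>
  simp only [← map_sub, one_smul, ← map_add, Prod.mk_sub_mk, Prod.mk_add_mk, hT,
    sub_self, add_zero, zero_add, norm_zero, he, h1 i j h, h2, le_rfl, and_true, true_and] <;>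
  norm_num

end Pool.Agent.Results.MP_adcce9_an.NoC0
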