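import Mathlib
import Pool.Agent.H51.SierB

set_option autoImplicit false

namespace Pool.Agent.Results.MP_adcce9_an.NoL1

open Pool.Agent.H51.SierA Pool.Agent.H51.SierB

/-- The norm of `ℓ₁`. -/
noncomputable def N {𝕜 : Type} [RCLike 𝕜] (x : ℕ →₀ 𝕜) : ℝ := ∑' n, ‖x n‖

theorem result (𝕜 : Type) [RCLike 𝕜] (f : ℕ → ℚ) :
    ¬ ∃ R S : (ℕ →₀ 𝕜) →ₗ[𝕜] X 𝕜 f, ∀ x y : ℕ →₀ 𝕜, ‖R x + S y‖ = max (N x) (N y) := by
  rintro ⟨R, S, hRS⟩
  let T := R.coprod S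
  have hT : ∀ x y : ℕ →₀ 𝕜, ‖T (x, y)‖ = max (N x) (N y) := hRS
  clear_value T
  have s : ∀ k : ℕ, HasSum (fun n => ‖(Finsupp.single k 1 : ℕ →₀ 𝕜) n‖) 1 := fun k => by
    convert hasSum_ite_eq k (1 : ℝ) using 2 with n
    rw [Finsupp.single_apply]; split_ifs <;> simp_all [eq_comm]
  let e : ℕ → ℕ →₀ 𝕜 := fun k => Finsupp.single k 1
  have sm : ∀ x : ℕ →₀ 𝕜, Summable fun n => ‖x n‖ := fun x =>
    summable_of_ne_finset_zero (s := x.support) fun n hn => by simpa using hn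
  have he : ∀ k, N (e k) = 1 := fun k => (s k).tsum_eq
  have h0 : N (0 : ℕ →₀ 𝕜) = 0 := by simp [N]
  have h1 : ∀ i j, N ((2 : 𝕜)⁻¹ • (e i - e j)) ≤ 1 := fun i j => by
    have := (((s i).add (s j)).mul_left 2⁻¹).tsum_eq
    refine le_trans (Summable.tsum_le_tsum (fun n => ?_) (sm _)
      (((s i).add (s j)).mul_left 2⁻¹).summable) (by rw [this]; norm_num)
    change ‖(2 : 𝕜)⁻¹ • (e i n - e j n)‖ ≤ _
    rw [norm_smul, norm_inv, RCLike.norm_two]
    exact mul_le_mul_of_nonneg_left (norm_sub_le _ _) (by norm_num)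
  have h2 : ∀ i j, i ≠ j → 2 ≤ N (e 0 + (2 : 𝕜)⁻¹ • (e (i + 1) - e (j + 1))) := fun i j h => by
    have := Summable.sum_le_tsum {0, i + 1, j + 1} (fun _ _ => norm_nonneg _)
      (sm (e 0 + (2 : 𝕜)⁻¹ • (e (i + 1) - e (j + 1))))
    rw [Finset.sum_insert (by simp), Finset.sum_pair (by simpa using h)] at this
    refine le_trans ?_ this
    simp [e, h, h.symm]
    norm_num
  refine main (T (e 0, 0)) (T (0, e 0)) (fun k => T (e (k + 1), 0)) (fun k => T (0, e (k + 1)))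
    (2 : 𝕜)⁻¹ (by rw [norm_inv, RCLike.norm_two]; norm_num) (by simp [hT, he, h0])
    (by simp [hT, he, h0]) (by simp [hT, he, h0]) (by simp [hT, he, h0]) (fun i j h => ?_)
    fun i j h => ?_ <;>
  simp only [← map_sub, ← map_smul, ← map_add, Prod.mk_sub_mk, Prod.smul_mk, Prod.mk_add_mk, hT,
    sub_self, smul_zero, add_zero, zero_add, h0, he, max_le_iff, le_max_iff, h1, h2 i j h,
    zero_le_one, le_rfl, and_self, true_or, or_true]

end Pool.Agent.Results.MP_adcce9_an.NoL1
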